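import Mathlib

/-! Bounded sets of full Hausdorff dimension in `ℝ ^ n` have full lower Minkowski dimension. -/

set_option autoImplicit false

namespace Pool.Agent.Helper67.MK

open MeasureTheory Metric Filter Topology Set
open scoped ENNReal NNReal

noncomputable section

variable {n : ℕ}

/-- separated finite subsets have few elements -/
theorem sep_card {K : Set (EuclideanSpace ℝ (Fin n))} {δ : ℝ} (F : Finset (EuclideanSpace ℝ (Fin n)))
    (hF : ∀ x ∈ F, x ∈ K) (hs : ∀ x ∈ F, ∀ y ∈ F, x ≠ y → δ ≤ dist x y) :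
    F.card * volume (ball (0 : EuclideanSpace ℝ (Fin n)) (δ / 2)) ≤ volume (thickening δ K) := by
  by_cases hδ : 0 < δ
  · have h1 : volume (⋃ x ∈ F, ball x (δ / 2)) = ∑ x ∈ F, volume (ball x (δ / 2)) := by
      refine measure_biUnion_finset (fun x hx y hy hxy => ?_) fun x _ => measurableSet_ball
      refine Set.disjoint_left.mpr fun z hz hz' => ?_
      have h2 := hs x hx y hy hxy
      have h3 := dist_triangle_left x y z
      rw [mem_ball] at hz hz'
      linarith
    have h2 : ∑ x ∈ F, volume (ball x (δ / 2)) = F.card * volume (ball (0 : EuclideanSpace ℝ (Fin n)) (δ / 2)) := by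
      rw [Finset.sum_congr rfl fun x _ => Measure.addHaar_ball_center volume x (δ / 2), Finset.sum_const, nsmul_eq_mul]
    rw [← h2, ← h1]
    refine measure_mono (iUnion₂_subset fun x hx z hz => ?_)
    rw [mem_thickening_iff]
    exact ⟨x, hF x hx, lt_of_lt_of_le (mem_ball.mp hz) (by linarith)⟩
  · have h1 : ball (0 : EuclideanSpace ℝ (Fin n)) (δ / 2) = ∅ := ball_eq_empty.mpr (by linarith)
    rw [h1, measure_empty, mul_zero]
    exact bot_le

/-- finite nets -/
theorem exists_net {K : Set (EuclideanSpace ℝ (Fin n))} {δ : ℝ} (hδ : 0 < δ) (hfin : volume (thickening δ K) ≠ ∞) :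
    ∃ F : Finset (EuclideanSpace ℝ (Fin n)), (K ⊆ ⋃ x ∈ F, ball x δ) ∧
      F.card * volume (ball (0 : EuclideanSpace ℝ (Fin n)) (δ / 2)) ≤ volume (thickening δ K) := by
  classical
  set v := volume (ball (0 : EuclideanSpace ℝ (Fin n)) (δ / 2)) with hv
  have hv0 : v ≠ 0 := (measure_ball_pos volume _ (by linarith)).ne'
  have hvt : v ≠ ∞ := measure_ball_lt_top.ne
  let P : Set ℕ := {k | ∃ F : Finset (EuclideanSpace ℝ (Fin n)), (∀ x ∈ F, x ∈ K) ∧
    (∀ x ∈ F, ∀ y ∈ F, x ≠ y → δ ≤ dist x y) ∧ F.card = k}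
  have h0 : P.Nonempty := ⟨0, ∅, by simp, by simp, rfl⟩
  have hbd : BddAbove P := by
    obtain ⟨N, hN⟩ := ENNReal.exists_nat_gt (ENNReal.div_ne_top hfin hv0)
    refine ⟨N, ?_⟩
    rintro k ⟨F, h1, h2, rfl⟩
    have h3 := sep_card F h1 h2
    have h4 : (F.card : ℝ≥0∞) ≤ volume (thickening δ K) / v := by
      rw [ENNReal.le_div_iff_mul_le (Or.inl hv0) (Or.inl hvt)]
      exact h3
    exact_mod_cast (h4.trans hN.le)
  obtain ⟨F, h1, h2, h3⟩ := Nat.sSup_mem h0 hbd
  refine ⟨F, fun y hy => ?_, sep_card F h1 h2⟩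
  by_contra hn
  have h4 : ∀ x ∈ F, δ ≤ dist y x := by
    intro x hx
    by_contra hlt
    exact hn (mem_iUnion₂.mpr ⟨x, hx, mem_ball.mpr (not_le.mp hlt)⟩)
  have h5 : y ∉ F := fun hyF => by
    have := h4 y hyF
    rw [dist_self] at this
    linarith
  have h6 : F.card + 1 ∈ P := by
    refine ⟨insert y F, ?_, ?_, Finset.card_insert_of_notMem h5⟩
    · intro x hx
      rcases Finset.mem_insert.mp hx with rfl | hx
      · exact hy
      · exact h1 x hx
    · intro x hx z hz hxz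
      rcases Finset.mem_insert.mp hx with rfl | hx
      · rcases Finset.mem_insert.mp hz with rfl | hz
        · exact absurd rfl hxz
        · exact h4 z hz
      · rcases Finset.mem_insert.mp hz with h | hz
        · rw [dist_comm, h]
          exact h4 x hx
        · exact h2 x hx z hz hxz
  have h7 := le_csSup hbd h6
  omega

/-- **full Hausdorff dimension ⇒ full lower Minkowski dimension** -/
theorem mink_of_dimH (hn : 1 ≤ n) {K : Set (EuclideanSpace ℝ (Fin n))} (hK : Bornology.IsBounded K) (hd : dimH K = n)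
    {ε : ℝ} (hε : 0 < ε) : ∃ c : ℝ, 0 < c ∧ ∀ δ : ℝ, 0 < δ → δ < 1 → c * δ ^ ε ≤ (volume (thickening δ K)).toReal := by
  have hfin : ∀ δ : ℝ, volume (thickening δ K) ≠ ∞ := fun δ => (hK.thickening).measure_lt_top.ne
  -- reduction to small ε
  wlog hεn : ε ≤ n / 2 generalizing ε
  · have hn' : (1 : ℝ) ≤ n := by exact_mod_cast hn
    obtain ⟨c, hc, h⟩ := this (ε := n / 2) (by linarith) le_rfl
    refine ⟨c, hc, fun δ h0 h1 => le_trans ?_ (h δ h0 h1)⟩
    exact mul_le_mul_of_nonneg_left (Real.rpow_le_rpow_of_exponent_ge h0 h1.le (not_le.mp hεn).le) hc.le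
  by_contra hcon0
  have hcon : ∀ c : ℝ, 0 < c → ∃ δ : ℝ, 0 < δ ∧ δ < 1 ∧ (volume (thickening δ K)).toReal < c * δ ^ ε := by
    intro c hc
    by_contra h
    exact hcon0 ⟨c, hc, fun δ h0 h1 => not_lt.mp fun h2 => h ⟨δ, h0, h1, h2⟩⟩
  have hn' : (1 : ℝ) ≤ n := by exact_mod_cast hn
  -- K is not empty
  have hne : K.Nonempty := by
    rw [nonempty_iff_ne_empty]
    rintro rfl
    rw [dimH_empty] at hd
    have : (n : ℝ≥0∞) = 0 := hd.symm
    have := Nat.cast_eq_zero.mp this
    omega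
  obtain ⟨p, hp⟩ := hne
  -- the volume of the unit ball
  set v : ℝ := (volume (ball (0 : EuclideanSpace ℝ (Fin n)) 1)).toReal with hv
  have hvt : volume (ball (0 : EuclideanSpace ℝ (Fin n)) 1) ≠ ∞ := measure_ball_lt_top.ne
  have hv0 : 0 < v := ENNReal.toReal_pos (measure_ball_pos volume _ one_pos).ne' hvt
  have hball : ∀ r : ℝ, 0 < r → (volume (ball (0 : EuclideanSpace ℝ (Fin n)) r)).toReal = r ^ n * v := by
    intro r hr
    rw [Measure.addHaar_ball_of_pos volume 0 hr, ENNReal.toReal_mul, ENNReal.toReal_ofReal (by positivity),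
      finrank_euclideanSpace_fin]
  have hlow : ∀ δ : ℝ, 0 < δ → δ ^ n * v ≤ (volume (thickening δ K)).toReal := by
    intro δ hδ
    rw [← hball δ hδ]
    have h1 : volume (ball (0 : EuclideanSpace ℝ (Fin n)) δ) = volume (ball p δ) :=
      (Measure.addHaar_ball_center volume p δ).symm
    rw [h1]
    refine ENNReal.toReal_mono (hfin δ) (measure_mono fun z hz => ?_)
    exact mem_thickening_iff.mpr ⟨p, hp, mem_ball.mp hz⟩
  -- the sequence
  have hseq : ∀ j : ℕ, ∃ δ : ℝ, 0 < δ ∧ δ < 1 ∧ δ < 1 / ((j : ℝ) + 1) ∧ (volume (thickening δ K)).toReal < δ ^ ε := by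
    intro j
    set η : ℝ := 1 / ((j : ℝ) + 1) with hη
    have hη0 : 0 < η := by positivity
    obtain ⟨δ, h0, h1, h2⟩ := hcon (min 1 (η ^ n * v)) (lt_min one_pos (by positivity))
    have h3 : δ ^ ε ≤ 1 := Real.rpow_le_one h0.le h1.le hε.le
    have h4 : 0 < δ ^ ε := Real.rpow_pos_of_pos h0 ε
    refine ⟨δ, h0, h1, ?_, ?_⟩
    · by_contra hle
      have h5 : η ^ n ≤ δ ^ n := pow_le_pow_left₀ hη0.le (not_lt.mp hle) n
      have h6 := hlow δ h0
      have h7 : min 1 (η ^ n * v) * δ ^ ε ≤ η ^ n * v := by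
        calc min 1 (η ^ n * v) * δ ^ ε ≤ (η ^ n * v) * 1 := by
              refine mul_le_mul (min_le_right _ _) h3 h4.le (by positivity)
          _ = η ^ n * v := mul_one _
      nlinarith
    · refine h2.trans_le ?_
      calc min 1 (η ^ n * v) * δ ^ ε ≤ 1 * δ ^ ε := mul_le_mul_of_nonneg_right (min_le_left _ _) h4.le
        _ = δ ^ ε := one_mul _
  choose δ h0 h1 h2 h3 using hseq
  have hnet : ∀ j, ∃ F : Finset (EuclideanSpace ℝ (Fin n)), (K ⊆ ⋃ x ∈ F, ball x (δ j)) ∧
      F.card * volume (ball (0 : EuclideanSpace ℝ (Fin n)) (δ j / 2)) ≤ volume (thickening (δ j) K) :=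
    fun j => exists_net (h0 j) (hfin _)
  choose F hF1 hF2 using hnet
  -- the number of balls
  have hcard : ∀ j, (F j).card * (δ j) ^ ((n : ℝ) - ε) ≤ 2 ^ n / v := by
    intro j
    have e1 : ((F j).card : ℝ) * ((δ j / 2) ^ n * v) ≤ (volume (thickening (δ j) K)).toReal := by
      have h4 := ENNReal.toReal_mono (hfin (δ j)) (hF2 j)
      rwa [ENNReal.toReal_mul, ENNReal.toReal_natCast, hball _ (by linarith [h0 j])] at h4
    have e2 : ((F j).card : ℝ) * ((δ j / 2) ^ n * v) ≤ (δ j) ^ ε := e1.trans (h3 j).le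
    have e3 : (δ j) ^ ((n : ℝ) - ε) * (δ j) ^ ε = (δ j) ^ n := by
      rw [← Real.rpow_add (h0 j), sub_add_cancel, Real.rpow_natCast]
    have e4 : 0 < (δ j) ^ ε := Real.rpow_pos_of_pos (h0 j) ε
    rw [le_div_iff₀ hv0]
    have e5 : ((F j).card : ℝ) * (δ j) ^ ((n : ℝ) - ε) * v * (δ j) ^ ε ≤ 2 ^ n * (δ j) ^ ε := by
      have e6 : (δ j / 2) ^ n * 2 ^ n = (δ j) ^ n := by
        rw [← mul_pow]
        congr 1
        ring
      have e7 : ((F j).card : ℝ) * (δ j) ^ ((n : ℝ) - ε) * v * (δ j) ^ ε =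
          2 ^ n * (((F j).card : ℝ) * ((δ j / 2) ^ n * v)) := by
        have : ((F j).card : ℝ) * (δ j) ^ ((n : ℝ) - ε) * v * (δ j) ^ ε =
            (F j).card * v * ((δ j) ^ ((n : ℝ) - ε) * (δ j) ^ ε) := by ring
        rw [this, e3, ← e6]
        ring
      rw [e7]
      exact mul_le_mul_of_nonneg_left e2 (by positivity)
    exact le_of_mul_le_mul_right e5 e4
  -- the Hausdorff measure
  set d : ℝ≥0 := ⟨(n : ℝ) - ε, by linarith⟩ with hdd
  have hdr : ((d : ℝ≥0) : ℝ) = (n : ℝ) - ε := rfl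
  have hdpos : 0 ≤ (n : ℝ) - ε := by linarith
  have hdi : ∀ j (x : EuclideanSpace ℝ (Fin n)), ediam (ball x (δ j)) ≤ ENNReal.ofReal (2 * δ j) := by
    intro j x
    refine ediam_le_of_forall_dist_le fun y hy z hz => ?_
    have h4 := dist_triangle_right y z x
    rw [mem_ball] at hy hz
    linarith
  have hH : μH[(d : ℝ)] K ≤ ENNReal.ofReal (2 ^ ((n : ℝ) - ε) * (2 ^ n / v)) := by
    refine (Measure.hausdorffMeasure_le_liminf_sum (ι := fun j => (F j : Set (EuclideanSpace ℝ (Fin n)))) (d : ℝ) K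
      (l := atTop) (fun j => ENNReal.ofReal (2 * (1 / ((j : ℝ) + 1)))) ?_ (fun j x => ball (x : EuclideanSpace ℝ (Fin n)) (δ j))
        ?_ ?_).trans ?_
    · have h4 : Tendsto (fun j : ℕ => 2 * (1 / ((j : ℝ) + 1))) atTop (𝓝 0) := by
        have := (tendsto_one_div_add_atTop_nhds_zero_nat (𝕜 := ℝ)).const_mul 2
        rwa [mul_zero] at this
      have h5 := ENNReal.tendsto_ofReal h4
      rwa [ENNReal.ofReal_zero] at h5
    · refine Eventually.of_forall fun j x => ?_
      refine (hdi j x).trans (ENNReal.ofReal_le_ofReal ?_)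
      have := (h2 j).le
      linarith
    · refine Eventually.of_forall fun j => ?_
      intro y hy
      obtain ⟨x, hx, hxy⟩ := mem_iUnion₂.mp (hF1 j hy)
      exact mem_iUnion.mpr ⟨⟨x, hx⟩, hxy⟩
    · refine liminf_le_of_frequently_le' (Frequently.of_forall fun j => ?_)
      calc ∑ x : (F j : Set (EuclideanSpace ℝ (Fin n))), ediam (ball (x : EuclideanSpace ℝ (Fin n)) (δ j)) ^ (d : ℝ) ≤
          ∑ x : (F j : Set (EuclideanSpace ℝ (Fin n))), ENNReal.ofReal (2 * δ j) ^ (d : ℝ) :=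
            Finset.sum_le_sum fun x _ => ENNReal.rpow_le_rpow (hdi j x) hdpos
        _ = ENNReal.ofReal ((F j).card * (2 * δ j) ^ (d : ℝ)) := by
            rw [Finset.sum_const, nsmul_eq_mul, ENNReal.ofReal_rpow_of_pos (by linarith [h0 j]),
              ENNReal.ofReal_mul (by positivity), ENNReal.ofReal_natCast]
            congr 2
            simp
        _ ≤ ENNReal.ofReal (2 ^ ((n : ℝ) - ε) * (2 ^ n / v)) := by
            refine ENNReal.ofReal_le_ofReal ?_
            rw [hdr, Real.mul_rpow (by norm_num) (h0 j).le]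
            have := mul_le_mul_of_nonneg_left (hcard j) (Real.rpow_nonneg (by norm_num : (0 : ℝ) ≤ 2) ((n : ℝ) - ε))
            calc ((F j).card : ℝ) * (2 ^ ((n : ℝ) - ε) * (δ j) ^ ((n : ℝ) - ε)) =
                2 ^ ((n : ℝ) - ε) * ((F j).card * (δ j) ^ ((n : ℝ) - ε)) := by ring
              _ ≤ _ := this
  have h4 : dimH K ≤ (d : ℝ≥0) := dimH_le_of_hausdorffMeasure_ne_top (ne_top_of_le_ne_top ENNReal.ofReal_ne_top hH)
  rw [hd] at h4
  have h5 : (n : ℝ≥0) ≤ d := by exact_mod_cast h4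
  have h6 : (n : ℝ) ≤ (n : ℝ) - ε := by
    have := (NNReal.coe_le_coe.mpr h5)
    rw [hdr] at this
    exact_mod_cast this
  linarith

end

end Pool.Agent.Helper67.MK
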